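import Mathlib
import Pool.Agent.T9h87.Engel.Pull

/-!
# Foliated leafwise contact data that cannot be perturbed to an Engel structure

On the closed orientable 4-manifold `M = (ℝ⁴ ∖ 0)/⟨x ↦ i x, x ↦ 2 x⟩ ≅ L(4,1) × S¹` (quaternion
multiplication), the foliation by the images of the round 3-spheres carries the leafwise contact
structure `ξ` spanned by the line fields that lift to `ℝ j x` and `ℝ k x`. A `C⁰` neighbourhood of `ξ`
contains no Engel structure.
-/

set_option autoImplicit false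
open scoped Manifold ContDiff Topology
open Filter Set

namespace Pool.Agent.Results.MP_d7c110_gt.NoEngelNearby

section Definitions

variable {E H M : Type} [NormedAddCommGroup E] [NormedSpace ℝ E] [TopologicalSpace H]
  {I : ModelWithCorners ℝ E H} [TopologicalSpace M] [ChartedSpace H M] [IsManifold I ∞ M]

/-- The vector field `X` on the manifold `M` is smooth on a neighbourhood of `x`. -/
def SmoothNear (X : (y : M) → TangentSpace I y) (x : M) : Prop :=
  ∀ᶠ y in 𝓝 x, ContMDiffAt I I.tangent ∞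
    (fun z => (⟨z, X z⟩ : TangentBundle I M)) y

/-- `D` is a smooth distribution of rank `k` on `M`: near every point it is spanned by `k` smooth,
pointwise linearly independent vector fields. -/
def IsDistribution (k : ℕ) (D : (x : M) → Submodule ℝ (TangentSpace I x)) : Prop :=
  ∀ x : M, ∃ X : Fin k → (y : M) → TangentSpace I y, (∀ i, SmoothNear (X i) x) ∧
    ∀ᶠ y in 𝓝 x, LinearIndependent ℝ (fun i => X i y) ∧
      D y = Submodule.span ℝ (Set.range fun i => X i y)

/-- `X` is, near `x`, a smooth section of `D`. -/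
def SectionNear (D : (x : M) → Submodule ℝ (TangentSpace I x))
    (X : (y : M) → TangentSpace I y) (x : M) : Prop :=
  SmoothNear X x ∧ ∀ᶠ y in 𝓝 x, X y ∈ D y

/-- `[D, D]`: spanned at `x` by `D x` and the Lie brackets of smooth sections of `D` near `x`. -/
noncomputable def bracketDist (D : (x : M) → Submodule ℝ (TangentSpace I x)) (x : M) :
    Submodule ℝ (TangentSpace I x) :=
  D x ⊔ Submodule.span ℝ {v | ∃ X Y : (y : M) → TangentSpace I y,
    SectionNear D X x ∧ SectionNear D Y x ∧ v = VectorField.mlieBracket I X Y x}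

/-- Engel structures on a 4-manifold `M`: `D` is a smooth distribution of rank 2, `E = [D, D]` is a smooth
distribution of rank 3 and `[E, E] = TM`. -/
def IsEngel (D : (x : M) → Submodule ℝ (TangentSpace I x)) : Prop :=
  IsDistribution 2 D ∧ IsDistribution 3 (bracketDist D) ∧
    ∀ x : M, bracketDist (bracketDist D) x = ⊤

/-- `F` is the tangent field `TF` of a smooth foliation of codimension 1: near every point it is the
field of kernels of the differential of a smooth submersion to `ℝ`. -/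
def IsFoliation (F : (x : M) → Submodule ℝ (TangentSpace I x)) : Prop :=
  ∀ x : M, ∃ f : M → ℝ, ∀ᶠ y in 𝓝 x, ContMDiffAt I 𝓘(ℝ, ℝ) ∞ f y ∧
    mfderiv I 𝓘(ℝ, ℝ) f y ≠ 0 ∧ F y = (mfderiv I 𝓘(ℝ, ℝ) f y).ker

/-- `ξ ⊂ TF` is a leafwise contact structure of the foliation with tangent field `F`: a smooth plane
field contained in `F` that is nowhere integrable, that is, near every point `x` it has smooth
sections `X, Y` (they are tangent to the leaves) with `[X, Y](x) ∉ ξ(x)`. -/
def IsLeafwiseContact (F ξ : (x : M) → Submodule ℝ (TangentSpace I x)) : Prop :=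
  IsDistribution 2 ξ ∧ (∀ x, ξ x ≤ F x) ∧
    ∀ x : M, ∃ X Y : (y : M) → TangentSpace I y, SectionNear ξ X x ∧ SectionNear ξ Y x ∧
      VectorField.mlieBracket I X Y x ∉ ξ x

/-- `ξ` splits as a sum `L₁ ⊕ L₂` of smooth line fields defined on all of `M`. -/
def IsSumOfLineFields (ξ : (x : M) → Submodule ℝ (TangentSpace I x)) : Prop :=
  ∃ L₁ L₂ : (x : M) → Submodule ℝ (TangentSpace I x), IsDistribution 1 L₁ ∧
    IsDistribution 1 L₂ ∧ ∀ x, L₁ x ⊓ L₂ x = ⊥ ∧ L₁ x ⊔ L₂ x = ξ x

/-- `U` is an open set of tangent vectors of `M` that is invariant under multiplication by nonzero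
real numbers. -/
def IsOpenCone (U : Set (TangentBundle I M)) : Prop :=
  IsOpen U ∧ ∀ (x : M) (v : TangentSpace I x) (c : ℝ), c ≠ 0 →
    (⟨x, v⟩ : TangentBundle I M) ∈ U → (⟨x, c • v⟩ : TangentBundle I M) ∈ U

/-- All nonzero vectors of the distribution `D` lie in `U`. -/
def LiesIn (D : (x : M) → Submodule ℝ (TangentSpace I x))
    (U : Set (TangentBundle I M)) : Prop :=
  ∀ x, ∀ v ∈ D x, v ≠ 0 → (⟨x, v⟩ : TangentBundle I M) ∈ U

/-- The data `(F, ξ)` on the closed manifold `M` can be perturbed to an Engel structure: there are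
Engel structures `D` arbitrarily `C⁰`-close to `ξ` with `[D, D]` arbitrarily `C⁰`-close to `F`. On a
compact manifold, a basis of the `C⁰` neighbourhoods of a distribution `D₀` of rank `k` is given by
the sets of those distributions of rank `k` that lie in `U`, where `U` is an open cone of tangent
vectors in which `D₀` lies. -/
def CanBePerturbedToEngel (F ξ : (x : M) → Submodule ℝ (TangentSpace I x)) : Prop :=
  ∀ U V : Set (TangentBundle I M), IsOpenCone U → LiesIn ξ U → IsOpenCone V → LiesIn F V →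
    ∃ D : (x : M) → Submodule ℝ (TangentSpace I x), IsEngel D ∧ LiesIn D U ∧
      LiesIn (bracketDist D) V

/-- `Z` is a smooth vector field on `M`. -/
def IsSmoothField (Z : (y : M) → TangentSpace I y) : Prop :=
  ContMDiff I I.tangent ∞ (fun z => (⟨z, Z z⟩ : TangentBundle I M))

variable (M) in
/-- `M` is compact, connected, Hausdorff and second countable. -/
def IsClosedConnected : Prop :=
  T2Space M ∧ SecondCountableTopology M ∧ CompactSpace M ∧ ConnectedSpace M

variable (M I) in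
/-- The manifold `M` carries a foliation of codimension 1 with tangent field `F` and a leafwise
contact structure `ξ ⊂ F` that splits as a sum of line fields, such that `(F, ξ)` cannot be perturbed
to an Engel structure; in fact some `C⁰` neighbourhood of `ξ` (the plane fields that lie in the open
cone `U`) contains no Engel structure at all. Moreover `F` is coorientable (`N` is transverse to `F`)
and `ξ` is coorientable in `F` (by `Z`). -/
def HasDataWithoutEngel : Prop :=
  ∃ F ξ : (x : M) → Submodule ℝ (TangentSpace I x),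
    IsFoliation F ∧ IsLeafwiseContact F ξ ∧ IsSumOfLineFields ξ ∧
    (∃ N Z : (x : M) → TangentSpace I x, IsSmoothField N ∧ IsSmoothField Z ∧
      ∀ x, N x ∉ F x ∧ Z x ∈ F x ∧ Z x ∉ ξ x) ∧
    ¬ CanBePerturbedToEngel F ξ ∧
    ∃ U : Set (TangentBundle I M), IsOpenCone U ∧ LiesIn ξ U ∧
      ∀ D : (x : M) → Submodule ℝ (TangentSpace I x), IsEngel D → ¬ LiesIn D U

end Definitions

open Pool.Agent.T9h87.Engel VectorField

/-! ## Pulling back distributions to `ℝ⁴ ∖ 0` -/

/-- pull back of a distribution. -/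
noncomputable def pullD (D : (x : MM) → Submodule ℝ (TangentSpace (𝓡 4) x)) (y : E4) :
    Submodule ℝ E4 :=
  Submodule.comap (dprj y : E4 →ₗ[ℝ] E4) (D (prj y))

theorem mem_pullD (D : (x : MM) → Submodule ℝ (TangentSpace (𝓡 4) x)) (y v : E4) :
    v ∈ pullD D y ↔ dprj y v ∈ (show Submodule ℝ E4 from D (prj y)) := Iff.rfl

theorem smooth_pull {X : (m : MM) → TangentSpace (𝓡 4) m} {y : E4} (hy : y ≠ 0)
    (hX : SmoothNear X (prj y)) : SmE (pb X) y := by
  filter_upwards [(prj_cont hy).eventually hX, isOpen_compl_singleton.mem_nhds hy] with z h1 h2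
  exact pb_smooth h2 h1

theorem sec_pull {D : (x : MM) → Submodule ℝ (TangentSpace (𝓡 4) x)}
    {X : (m : MM) → TangentSpace (𝓡 4) m} {y : E4} (hy : y ≠ 0)
    (hX : SectionNear D X (prj y)) : SecE (pullD D) (pb X) y := by
  refine ⟨smooth_pull hy hX.1, ?_⟩
  filter_upwards [(prj_cont hy).eventually hX.2, isOpen_compl_singleton.mem_nhds hy] with z h1 h2
  rw [mem_pullD, pb_apply X h2]
  exact h1

theorem br_pull (D : (x : MM) → Submodule ℝ (TangentSpace (𝓡 4) x)) {y : E4} (hy : y ≠ 0)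
    (v : E4) (hv : v ∈ (show Submodule ℝ E4 from bracketDist D (prj y))) :
    ∃ w ∈ brE (pullD D) y, dprj y w = v := by
  have hle : (show Submodule ℝ E4 from bracketDist D (prj y)) ≤
      Submodule.map (dprj y : E4 →ₗ[ℝ] E4) (brE (pullD D) y) := by
    apply sup_le
    · intro u hu
      have h1 : dprj y ((dprj y).inverse u) = u := (dprj_inv hy).self_apply_inverse u
      refine ⟨(dprj y).inverse u, ?_, h1⟩
      apply Submodule.mem_sup_left
      rw [mem_pullD, h1]
      exact hu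
    · apply Submodule.span_le.2
      rintro _ ⟨X, Y, hX, hY, rfl⟩
      refine ⟨lieBracket ℝ (pb X) (pb Y) y, ?_, pb_bracket hy hX.1.self_of_nhds hY.1.self_of_nhds⟩
      exact Submodule.mem_sup_right (Submodule.subset_span
        ⟨pb X, pb Y, sec_pull hy hX, sec_pull hy hY, rfl⟩)
  exact hle hv

theorem dist_pull {k : ℕ} {D : (x : MM) → Submodule ℝ (TangentSpace (𝓡 4) x)}
    (hD : IsDistribution k D) {y : E4} (hy : y ≠ 0) :
    ∃ Y : Fin k → E4 → E4, (∀ i, SmE (Y i) y) ∧
      ∀ᶠ z in 𝓝 y, LinearIndependent ℝ (fun i => Y i z) ∧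
        pullD D z = Submodule.span ℝ (range fun i => Y i z) := by
  obtain ⟨X, hX, hsp⟩ := hD (prj y)
  refine ⟨fun i => pb (X i), fun i => smooth_pull hy (hX i), ?_⟩
  filter_upwards [(prj_cont hy).eventually hsp, isOpen_compl_singleton.mem_nhds hy] with z h1 h2
  have h3 : (fun i => (X i (prj z) : E4)) = fun i => dprj z (pb (X i) z) := by
    funext i
    exact (pb_apply (X i) h2).symm
  constructor
  · apply LinearIndependent.of_comp (dprj z : E4 →ₗ[ℝ] E4)
    have h4 : LinearIndependent ℝ (fun i => (X i (prj z) : E4)) := h1.1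
    rw [h3] at h4
    exact h4
  · have h4 : (show Submodule ℝ E4 from D (prj z)) =
        Submodule.span ℝ (range fun i => (X i (prj z) : E4)) := h1.2
    have h5 : Submodule.span ℝ (range fun i => (X i (prj z) : E4)) =
        Submodule.map (dprj z : E4 →ₗ[ℝ] E4) (Submodule.span ℝ (range fun i => pb (X i) z)) := by
      rw [h3, Submodule.map_span, ← Set.range_comp]
      rfl
    change Submodule.comap (dprj z : E4 →ₗ[ℝ] E4) (show Submodule ℝ E4 from D (prj z)) = _
    rw [h4, h5, Submodule.comap_map_eq_of_injective]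
    exact dprj_inj h2

/-- scalar product in coordinates -/
noncomputable def dt (a b : E4) : ℝ := a 0 * b 0 + a 1 * b 1 + a 2 * b 2 + a 3 * b 3

theorem dt_LL (g : GG) (a b : E4) : dt (LL g a) (LL g b) = ((2 : ℝ) ^ gm g) ^ 2 * dt a b := by
  have h2 : ((cZ (ga g) : ℝ)) ^ 2 + (sZ (ga g) : ℝ) ^ 2 = 1 := by exact_mod_cast cs_sq (ga g)
  rw [LL_apply, LL_apply]
  simp [dt, I4_apply]
  linear_combination (((2 : ℝ) ^ gm g) ^ 2 * (a 0 * b 0 + a 1 * b 1 + a 2 * b 2 + a 3 * b 3)) * h2

theorem dt_smul_left (c : ℝ) (a b : E4) : dt (c • a) b = c * dt a b := by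
  simp [dt]; ring

theorem pj_eq (y v : E4) : pj y v = dt (J4 y) v := by
  simp [pj, dt, J4_apply]; ring

theorem pk_eq (y v : E4) : pk y v = dt (K4 y) v := by
  simp [pk, dt, K4_apply]; ring

theorem pj_LL (g : GG) (y v : E4) : pj (LL g y) (LL g v) = sg g * ((2 : ℝ) ^ gm g) ^ 2 * pj y v := by
  rw [pj_eq, pj_eq, J4_LL, dt_smul_left, dt_LL, mul_assoc]

theorem pk_LL (g : GG) (y v : E4) : pk (LL g y) (LL g v) = sg g * ((2 : ℝ) ^ gm g) ^ 2 * pk y v := by
  rw [pk_eq, pk_eq, K4_LL, dt_smul_left, dt_LL, mul_assoc]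

theorem fac_ne (g : GG) : sg g * ((2 : ℝ) ^ gm g) ^ 2 ≠ 0 :=
  mul_ne_zero (sg_ne g) (pow_ne_zero _ (two_ne _))

/-- the open cone around `ξ` -/
def UU : Set (TangentBundle (𝓡 4) MM) :=
  {p | pj (lf p.1) (show E4 from p.2) ≠ 0 ∨ pk (lf p.1) (show E4 from p.2) ≠ 0}

/-- No Engel structure lies in the cone `UU`. -/
theorem no_engel (D : (x : MM) → Submodule ℝ (TangentSpace (𝓡 4) x)) (hD : IsEngel D) :
    ¬ LiesIn D UU := by
  intro hU
  obtain ⟨h2, h3, h4⟩ := hD
  apply obstruction (pullD D) (pullD (bracketDist D))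
  · intro y hy
    exact dist_pull h2 hy
  · intro y hy v hv h5 h6
    by_contra hne
    obtain ⟨g, hg1, hg2⟩ := dprj_spec hy
    have h7 : dprj y v ≠ 0 := fun h => hne (dprj_inj hy (by rw [h, map_zero]))
    rw [mem_pullD] at hv
    have h8 := hU (prj y) (dprj y v) hv h7
    have h9 : pj (lf (prj y)) (dprj y v) ≠ 0 ∨ pk (lf (prj y)) (dprj y v) ≠ 0 := h8
    rw [← hg1, hg2, pj_LL, pk_LL, h5, h6, mul_zero] at h9
    simp at h9
  · intro y hy v hv
    rw [mem_pullD] at hv ⊢
    have h5 := dprj_LL hy gq v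
    rw [LL_gq, LL_gq] at h5
    have h6 : prj (I4 y) = prj y := by
      have := prj_LL hy gq
      rwa [LL_gq] at this
    rw [h5, h6]
    exact hv
  · intro y hy
    obtain ⟨Y, -, hY⟩ := dist_pull h3 hy
    obtain ⟨h5, h6⟩ := hY.self_of_nhds
    rw [h6, finrank_span_eq_card h5]
    simp
  · intro y hy v hv
    rw [mem_pullD] at hv
    obtain ⟨w, hw1, hw2⟩ := br_pull D hy _ hv
    rw [← dprj_inj hy hw2]
    exact hw1
  · intro y hy
    rw [eq_top_iff]
    intro v _
    have h5 : dprj y v ∈ (show Submodule ℝ E4 from bracketDist (bracketDist D) (prj y)) := by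
      have := h4 (prj y)
      have h6 : (show Submodule ℝ E4 from bracketDist (bracketDist D) (prj y)) = ⊤ := this
      rw [h6]
      exact Submodule.mem_top
    obtain ⟨w, hw1, hw2⟩ := br_pull (bracketDist D) hy _ h5
    rw [← dprj_inj hy hw2]
    exact hw1

/-! ## The foliation and the leafwise contact structure -/

theorem cd (A : E4 →L[ℝ] E4) : ContDiff ℝ ∞ (fun z => A z) := A.contDiff

theorem ch_J (m0 : MM) {m : MM} (hm : m ∈ (chartAt E4 m0).source) :
    ∃ c : ℝ, c ≠ 0 ∧ (ch m0 (fun z => J4 z) m : E4) = c • J4 (lf m) ∧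
      (ch m0 (fun z => K4 z) m : E4) = c • K4 (lf m) := by
  obtain ⟨g, h1, h2⟩ := ch_apply m0 (fun z => J4 z) hm
  obtain ⟨g', h1', h2'⟩ := ch_apply m0 (fun z => K4 z) hm
  have hg : g' = g := LL_cancel (lf_ne m) (h1'.trans h1.symm)
  subst hg
  refine ⟨sg g', sg_ne g', ?_, ?_⟩
  · rw [h2, J4_LL, map_smul, LL_inv]
  · rw [h2', K4_LL, map_smul, LL_inv]

theorem ch_I (m0 : MM) {m : MM} (hm : m ∈ (chartAt E4 m0).source) :
    (ch m0 (fun z => I4 z) m : E4) = I4 (lf m) := by
  obtain ⟨g, h1, h2⟩ := ch_apply m0 (fun z => I4 z) hm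
  rw [h2, I4_LL, LL_inv]

theorem ch_id (m0 : MM) {m : MM} (hm : m ∈ (chartAt E4 m0).source) :
    (ch m0 (fun z => z) m : E4) = lf m := by
  obtain ⟨g, h1, h2⟩ := ch_apply m0 (fun z => z) hm
  rw [h2, LL_inv]

theorem ch_near (m0 : MM) {A : E4 → E4} (hA : ContDiff ℝ ∞ A) : SmoothNear (ch m0 A) m0 := by
  filter_upwards [(chartAt E4 m0).open_source.mem_nhds (mem_chart_source E4 m0)] with m hm
  exact ch_smooth m0 hA hm

/-- first line field -/
noncomputable def L1 (m : MM) : Submodule ℝ (TangentSpace (𝓡 4) m) :=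
  (show Submodule ℝ E4 from Submodule.span ℝ {J4 (lf m)})
/-- second line field -/
noncomputable def L2 (m : MM) : Submodule ℝ (TangentSpace (𝓡 4) m) :=
  (show Submodule ℝ E4 from Submodule.span ℝ {K4 (lf m)})
/-- the leafwise contact structure -/
noncomputable def xi (m : MM) : Submodule ℝ (TangentSpace (𝓡 4) m) :=
  (show Submodule ℝ E4 from Submodule.span ℝ {J4 (lf m), K4 (lf m)})
/-- the tangent field of the foliation -/
noncomputable def FF (m : MM) : Submodule ℝ (TangentSpace (𝓡 4) m) :=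
  (show Submodule ℝ E4 from LinearMap.ker (innerSL ℝ (lf m)).toLinearMap)

theorem inner_dt (a b : E4) : inner ℝ a b = dt a b := by
  rw [PiLp.inner_apply, Fin.sum_univ_four]
  simp [dt]
  ring

theorem dt_self (a : E4) : dt a a = ‖a‖ ^ 2 := by
  rw [nsq]; simp [dt]; ring

theorem dt_pos {a : E4} (ha : a ≠ 0) : dt a a ≠ 0 := by
  rw [dt_self]
  exact pow_ne_zero _ (norm_ne_zero_iff.2 ha)

theorem pj_J (y : E4) : pj y (J4 y) = dt y y := by simp [pj, dt, J4_apply]; ring
theorem pk_J (y : E4) : pk y (J4 y) = 0 := by simp [pk, J4_apply]; ring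
theorem pj_K (y : E4) : pj y (K4 y) = 0 := by simp [pj, K4_apply]; ring
theorem pk_K (y : E4) : pk y (K4 y) = dt y y := by simp [pk, dt, K4_apply]; ring
theorem pj_I (y : E4) : pj y (I4 y) = 0 := by simp [pj, I4_apply]; ring
theorem pk_I (y : E4) : pk y (I4 y) = 0 := by simp [pk, I4_apply]; ring
theorem dt_J (y : E4) : dt y (J4 y) = 0 := by simp [dt, J4_apply]; ring
theorem dt_K (y : E4) : dt y (K4 y) = 0 := by simp [dt, K4_apply]; ring
theorem dt_I (y : E4) : dt y (I4 y) = 0 := by simp [dt, I4_apply]; ring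

theorem liJK {y : E4} (hy : y ≠ 0) : LinearIndependent ℝ ![J4 y, K4 y] := by
  rw [LinearIndependent.pair_iff]
  intro a b hab
  have e1 := congrArg (pj y) hab
  have e2 := congrArg (pk y) hab
  rw [pj_add, pj_smul, pj_smul, pj_J, pj_K] at e1
  rw [pk_add, pk_smul, pk_smul, pk_J, pk_K] at e2
  have z1 : pj y 0 = 0 := by simp [pj]
  have z2 : pk y 0 = 0 := by simp [pk]
  rw [z1] at e1
  rw [z2] at e2
  have hne := dt_pos hy
  constructor
  · have : a * dt y y = 0 := by linarith
    exact (mul_eq_zero.1 this).resolve_right hne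
  · have : b * dt y y = 0 := by linarith
    exact (mul_eq_zero.1 this).resolve_right hne

theorem J_ne {y : E4} (hy : y ≠ 0) : J4 y ≠ 0 := (liJK hy).ne_zero 0
theorem K_ne {y : E4} (hy : y ≠ 0) : K4 y ≠ 0 := (liJK hy).ne_zero 1

theorem span_pair_smul (a b : E4) {c : ℝ} (hc : c ≠ 0) :
    Submodule.span ℝ {a, b} = Submodule.span ℝ (range fun i => c • (![a, b] : Fin 2 → E4) i) := by
  apply le_antisymm
  · rw [Submodule.span_le]
    rintro v (rfl | rfl)
    · have : c • v ∈ Submodule.span ℝ (range fun i => c • (![v, b] : Fin 2 → E4) i) :=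
        Submodule.subset_span ⟨0, rfl⟩
      exact (Submodule.smul_mem_iff _ hc).1 this
    · have : c • v ∈ Submodule.span ℝ (range fun i => c • (![a, v] : Fin 2 → E4) i) :=
        Submodule.subset_span ⟨1, rfl⟩
      exact (Submodule.smul_mem_iff _ hc).1 this
  · rw [Submodule.span_le]
    rintro _ ⟨i, rfl⟩
    apply Submodule.smul_mem
    apply Submodule.subset_span
    fin_cases i
    · exact Or.inl rfl
    · exact Or.inr rfl

theorem span_one_smul (a : E4) {c : ℝ} (hc : c ≠ 0) :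
    Submodule.span ℝ {a} = Submodule.span ℝ (range fun _ : Fin 1 => c • a) := by
  rw [Set.range_const]
  exact (Submodule.span_singleton_smul_eq (IsUnit.mk0 c hc) _).symm

theorem smul_mem_left (a b : E4) (c : ℝ) : c • a ∈ Submodule.span ℝ {a, b} :=
  Submodule.smul_mem _ _ (Submodule.subset_span (Or.inl rfl))

theorem smul_mem_right (a b : E4) (c : ℝ) : c • b ∈ Submodule.span ℝ {a, b} :=
  Submodule.smul_mem _ _ (Submodule.subset_span (Or.inr rfl))

theorem dist_xi : IsDistribution 2 xi := by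
  intro m0
  refine ⟨![ch m0 (fun z => J4 z), ch m0 (fun z => K4 z)], ?_, ?_⟩
  · intro i
    fin_cases i
    · exact ch_near m0 (cd J4)
    · exact ch_near m0 (cd K4)
  · filter_upwards [(chartAt E4 m0).open_source.mem_nhds (mem_chart_source E4 m0)] with m hm
    obtain ⟨c, hc, h1, h2⟩ := ch_J m0 hm
    have hr : (fun i => ((![ch m0 (fun z => J4 z), ch m0 (fun z => K4 z)] :
        Fin 2 → (y : MM) → TangentSpace (𝓡 4) y) i m : E4)) = fun i => c • (![J4 (lf m), K4 (lf m)] : Fin 2 → E4) i := by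
      funext i
      fin_cases i
      · exact h1
      · exact h2
    constructor
    · change LinearIndependent ℝ (fun i => ((![ch m0 (fun z => J4 z), ch m0 (fun z => K4 z)] :
        Fin 2 → (y : MM) → TangentSpace (𝓡 4) y) i m : E4))
      rw [hr]
      exact (liJK (lf_ne m)).units_smul (fun _ => Units.mk0 c hc)
    · change Submodule.span ℝ {J4 (lf m), K4 (lf m)} = Submodule.span ℝ (range fun i =>
        ((![ch m0 (fun z => J4 z), ch m0 (fun z => K4 z)] :
        Fin 2 → (y : MM) → TangentSpace (𝓡 4) y) i m : E4))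
      rw [hr]
      exact span_pair_smul _ _ hc

theorem dist_line (A : E4 →L[ℝ] E4) (hA : ∀ y, y ≠ 0 → A y ≠ 0) (m0 : MM)
    (hc : ∀ m ∈ (chartAt E4 m0).source, ∃ c : ℝ, c ≠ 0 ∧ (ch m0 (fun z => A z) m : E4) = c • A (lf m)) :
    ∃ X : Fin 1 → (y : MM) → TangentSpace (𝓡 4) y, (∀ i, SmoothNear (X i) m0) ∧
    ∀ᶠ y in 𝓝 m0, LinearIndependent ℝ (fun i => X i y) ∧
      (show Submodule ℝ (TangentSpace (𝓡 4) y) from Submodule.span ℝ {A (lf y)}) =
        Submodule.span ℝ (Set.range fun i => X i y) := by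
  refine ⟨fun _ => ch m0 (fun z => A z), fun _ => ch_near m0 (cd A), ?_⟩
  filter_upwards [(chartAt E4 m0).open_source.mem_nhds (mem_chart_source E4 m0)] with m hm
  obtain ⟨c, hc, h1⟩ := hc m hm
  constructor
  · change LinearIndependent ℝ (fun _ : Fin 1 => (ch m0 (fun z => A z) m : E4))
    rw [linearIndependent_unique_iff, h1]
    exact smul_ne_zero hc (hA _ (lf_ne m))
  · change Submodule.span ℝ {A (lf m)} = Submodule.span ℝ (range fun _ : Fin 1 => (ch m0 (fun z => A z) m : E4))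
    rw [h1]
    exact span_one_smul _ hc

theorem split : IsSumOfLineFields xi := by
  refine ⟨L1, L2, ?_, ?_, ?_⟩
  · intro m0
    exact dist_line J4 (fun y hy => J_ne hy) m0 (fun m hm => by
      obtain ⟨c, hc, h1, -⟩ := ch_J m0 hm
      exact ⟨c, hc, h1⟩)
  · intro m0
    exact dist_line K4 (fun y hy => K_ne hy) m0 (fun m hm => by
      obtain ⟨c, hc, -, h1⟩ := ch_J m0 hm
      exact ⟨c, hc, h1⟩)
  · intro m
    constructor
    · change Submodule.span ℝ {J4 (lf m)} ⊓ Submodule.span ℝ {K4 (lf m)} = ⊥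
      rw [← disjoint_iff, Submodule.disjoint_span_singleton]
      intro h
      obtain ⟨a, ha⟩ := Submodule.mem_span_singleton.1 h
      have h1 := (LinearIndependent.pair_iff.1 (liJK (lf_ne m))) a (-1) (by rw [ha]; simp)
      norm_num at h1
    · change Submodule.span ℝ {J4 (lf m)} ⊔ Submodule.span ℝ {K4 (lf m)} = Submodule.span ℝ {J4 (lf m), K4 (lf m)}
      rw [← Submodule.span_union]
      rfl

theorem bracket_JK (y : E4) : lieBracket ℝ (fun z => J4 z) (fun z => K4 z) y = (-2 : ℝ) • I4 y := by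
  rw [lieBracket, K4.fderiv, J4.fderiv, K4_J4, J4_K4]
  module

theorem contact : IsLeafwiseContact FF xi := by
  refine ⟨dist_xi, ?_, ?_⟩
  · intro m
    apply Submodule.span_le.2
    rintro v (rfl | rfl)
    · change inner ℝ (lf m) (J4 (lf m)) = 0
      rw [inner_dt, dt_J]
    · change inner ℝ (lf m) (K4 (lf m)) = 0
      rw [inner_dt, dt_K]
  · intro m0
    refine ⟨ch m0 (fun z => J4 z), ch m0 (fun z => K4 z), ⟨ch_near m0 (cd J4), ?_⟩,
      ⟨ch_near m0 (cd K4), ?_⟩, ?_⟩
    · filter_upwards [(chartAt E4 m0).open_source.mem_nhds (mem_chart_source E4 m0)] with m hm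
      obtain ⟨c, hc, h1, -⟩ := ch_J m0 hm
      change (ch m0 (fun z => J4 z) m : E4) ∈ Submodule.span ℝ {J4 (lf m), K4 (lf m)}
      rw [h1]
      exact smul_mem_left _ _ c
    · filter_upwards [(chartAt E4 m0).open_source.mem_nhds (mem_chart_source E4 m0)] with m hm
      obtain ⟨c, hc, -, h1⟩ := ch_J m0 hm
      change (ch m0 (fun z => K4 z) m : E4) ∈ Submodule.span ℝ {J4 (lf m), K4 (lf m)}
      rw [h1]
      exact smul_mem_right _ _ c
    · intro h
      have h1 := ch_bracket m0 (cd J4) (cd K4)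
      rw [bracket_JK] at h1
      have h2 : (-2 : ℝ) • I4 (lf m0) ∈ Submodule.span ℝ {J4 (lf m0), K4 (lf m0)} := by
        rw [← h1]
        exact h
      obtain ⟨a, b, hab⟩ := Submodule.mem_span_pair.1 h2
      have e1 := congrArg (dt (I4 (lf m0))) hab
      have e2 : dt (I4 (lf m0)) (a • J4 (lf m0) + b • K4 (lf m0)) = 0 := by
        simp [dt, I4_apply, J4_apply, K4_apply]; ring
      have e3 : dt (I4 (lf m0)) ((-2 : ℝ) • I4 (lf m0)) = -2 * dt (lf m0) (lf m0) := by
        simp [dt, I4_apply]; ring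
      rw [e2, e3] at e1
      have := dt_pos (lf_ne m0)
      apply this
      linarith

theorem foliation : IsFoliation FF := by
  intro m0
  refine ⟨fun m => ‖chartAt E4 m0 m‖ ^ 2, ?_⟩
  filter_upwards [(chartAt E4 m0).open_source.mem_nhds (mem_chart_source E4 m0)] with m hm
  obtain ⟨g, h1, h2, h3⟩ := hasMFDeriv_chart m0 hm
  have hn : ContDiff ℝ ∞ (fun z : E4 => ‖z‖ ^ 2) := contDiff_norm_sq ℝ
  have h4 : HasMFDerivAt (𝓡 4) 𝓘(ℝ, ℝ) (fun z : E4 => ‖z‖ ^ 2) (chartAt E4 m0 m)
      (2 • innerSL ℝ (chartAt E4 m0 m) : E4 →L[ℝ] ℝ) :=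
    (hasStrictFDerivAt_norm_sq (chartAt E4 m0 m)).hasFDerivAt.hasMFDerivAt
  have h5 := HasMFDerivAt.comp m h4 h3
  have h6 : mfderiv (𝓡 4) 𝓘(ℝ, ℝ) (fun m => ‖chartAt E4 m0 m‖ ^ 2) m =
      ((2 • innerSL ℝ (chartAt E4 m0 m) : E4 →L[ℝ] ℝ).comp (LL g) : E4 →L[ℝ] ℝ) := h5.mfderiv
  have h7 : ∀ v : E4, ((2 • innerSL ℝ (chartAt E4 m0 m) : E4 →L[ℝ] ℝ).comp (LL g) : E4 →L[ℝ] ℝ) v =
      2 * ((2 : ℝ) ^ gm g) ^ 2 * inner ℝ (lf m) v := by
    intro v
    rw [ContinuousLinearMap.comp_apply, ← h1]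
    change (2 • (innerSL ℝ (LL g (lf m)) : E4 →L[ℝ] ℝ)) (LL g v) = _
    rw [smul_apply, innerSL_apply_apply, inner_dt, inner_dt, dt_LL, two_smul]
    ring
  have hne : (2 * ((2 : ℝ) ^ gm g) ^ 2) ≠ 0 := mul_ne_zero two_ne_zero (pow_ne_zero _ (two_ne _))
  refine ⟨?_, ?_, ?_⟩
  · exact (hn.contMDiff (chartAt E4 m0 m)).comp m h2
  · rw [h6]
    intro h
    have h8 := congrArg (fun L : E4 →L[ℝ] ℝ => L (lf m)) h
    have h9 : 2 * ((2 : ℝ) ^ gm g) ^ 2 * inner ℝ (lf m) (lf m) = 0 := by
      rw [← h7]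
      exact h8
    rw [inner_dt] at h9
    rcases mul_eq_zero.1 h9 with h | h
    · exact hne h
    · exact dt_pos (lf_ne m) h
  · rw [h6]
    have h8 : ∀ v : E4, inner ℝ (lf m) v = 0 ↔
        ((2 • innerSL ℝ (chartAt E4 m0 m) : E4 →L[ℝ] ℝ).comp (LL g) : E4 →L[ℝ] ℝ) v = 0 := by
      intro v
      rw [h7, mul_eq_zero]
      constructor
      · intro h; exact Or.inr h
      · intro h; exact h.resolve_left hne
    ext v
    exact h8 v

/-! ## The cone is open -/

theorem triv_snd (m0 : MM) {m : MM} (hm : m ∈ (chartAt E4 m0).source) (v : TangentSpace (𝓡 4) m) :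
    ∃ g : GG, LL g (lf m) = chartAt E4 m0 m ∧
      (trivializationAt E4 (TangentSpace (𝓡 4)) m0 (⟨m, v⟩ : TangentBundle (𝓡 4) MM)).2 =
        LL g (show E4 from v) := by
  have hs : prj (lf m) ∈ (chartAt E4 m0).source := by rw [prj_lf]; exact hm
  obtain ⟨g, h1, h2⟩ := chart_prj (chart_mem_atlas E4 m0) (lf_ne m) hs
  rw [prj_lf] at h1
  refine ⟨g, h1, ?_⟩
  rw [TangentBundle.trivializationAt_apply]
  have heq : (fun z => ((chartAt E4 m0).extend (𝓡 4) ∘ ((chartAt E4 m).extend (𝓡 4)).symm) z)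
      =ᶠ[𝓝 (lf m)] fun z => LL g z := by
    filter_upwards [h2, isOpen_compl_singleton.mem_nhds (lf_ne m)] with z hz hz0
    have h3 : ((chartAt E4 m).extend (𝓡 4)).symm z = prj z := by
      have := atlas_symm (chart_mem_atlas E4 m) hz0
      simpa using this
    simp only [Function.comp_apply, h3]
    exact hz
  have h4 : HasFDerivAt (fun z : E4 => LL g z) (LL g) (lf m) := (LL g).hasFDerivAt
  have h5 : HasFDerivAt ((chartAt E4 m0).extend (𝓡 4) ∘ ((chartAt E4 m).extend (𝓡 4)).symm)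
      (LL g) (lf m) := h4.congr_of_eventuallyEq heq
  have h6 : (chartAt E4 m).extend (𝓡 4) m = lf m := rfl
  have h7 : range (𝓡 4) = univ := by simp
  change fderivWithin ℝ ((chartAt E4 m0).extend (𝓡 4) ∘ ((chartAt E4 m).extend (𝓡 4)).symm)
    (range (𝓡 4)) ((chartAt E4 m).extend (𝓡 4) m) (show E4 from v) = LL g (show E4 from v)
  rw [h6, h7, fderivWithin_univ, h5.fderiv]

theorem continuous_pj : Continuous fun p : E4 × E4 => pj p.1 p.2 := by
  have h : ∀ i, Continuous fun p : E4 × E4 => p.1 i := fun i =>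
    (EuclideanSpace.proj i : E4 →L[ℝ] ℝ).continuous.comp continuous_fst
  have h' : ∀ i, Continuous fun p : E4 × E4 => p.2 i := fun i =>
    (EuclideanSpace.proj i : E4 →L[ℝ] ℝ).continuous.comp continuous_snd
  unfold pj
  exact ((((h 2).neg.mul (h' 0)).add ((h 3).mul (h' 1))).add ((h 0).mul (h' 2))).sub ((h 1).mul (h' 3))

theorem continuous_pk : Continuous fun p : E4 × E4 => pk p.1 p.2 := by
  have h : ∀ i, Continuous fun p : E4 × E4 => p.1 i := fun i =>
    (EuclideanSpace.proj i : E4 →L[ℝ] ℝ).continuous.comp continuous_fst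
  have h' : ∀ i, Continuous fun p : E4 × E4 => p.2 i := fun i =>
    (EuclideanSpace.proj i : E4 →L[ℝ] ℝ).continuous.comp continuous_snd
  unfold pk
  exact ((((h 3).neg.mul (h' 0)).sub ((h 2).mul (h' 1))).add ((h 1).mul (h' 2))).add ((h 0).mul (h' 3))

theorem mem_UU (p : TangentBundle (𝓡 4) MM) : p ∈ UU ↔
    pj (lf p.1) (show E4 from p.2) ≠ 0 ∨ pk (lf p.1) (show E4 from p.2) ≠ 0 := Iff.rfl

theorem mem_UU_iff (m0 : MM) (p : TangentBundle (𝓡 4) MM) (hp : p.1 ∈ (chartAt E4 m0).source) :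
    p ∈ UU ↔ (pj (chartAt E4 m0 p.1) (trivializationAt E4 (TangentSpace (𝓡 4)) m0 p).2 ≠ 0 ∨
      pk (chartAt E4 m0 p.1) (trivializationAt E4 (TangentSpace (𝓡 4)) m0 p).2 ≠ 0) := by
  obtain ⟨m, v⟩ := p
  obtain ⟨g, h1, h2⟩ := triv_snd m0 hp v
  rw [h2, ← h1, pj_LL, pk_LL, mul_ne_zero_iff_left (fac_ne g), mul_ne_zero_iff_left (fac_ne g)]
  exact mem_UU _

theorem isOpen_UU : IsOpen UU := by
  rw [isOpen_iff_mem_nhds]
  intro p0 hp0
  set e := trivializationAt E4 (TangentSpace (𝓡 4)) p0.1 with he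
  have hsrc : p0.1 ∈ (chartAt E4 p0.1).source := mem_chart_source E4 p0.1
  have hc1 : ContinuousAt (fun p : TangentBundle (𝓡 4) MM => p.1) p0 :=
    (FiberBundle.continuous_proj E4 (TangentSpace (𝓡 4))).continuousAt
  have hc2 : ContinuousAt (fun p : TangentBundle (𝓡 4) MM => e p) p0 := by
    apply e.continuousAt
    rw [e.mem_source]
    exact FiberBundle.mem_baseSet_trivializationAt' p0.1
  have hc3 : ContinuousAt (fun p : TangentBundle (𝓡 4) MM => (chartAt E4 p0.1 p.1, (e p).2)) p0 :=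
    (((chartAt E4 p0.1).continuousAt hsrc).comp hc1).prodMk (continuous_snd.continuousAt.comp hc2)
  have h1 : ∀ᶠ p in 𝓝 p0, p.1 ∈ (chartAt E4 p0.1).source :=
    hc1.eventually_mem ((chartAt E4 p0.1).open_source.mem_nhds hsrc)
  have h2 := (mem_UU_iff p0.1 p0 hsrc).1 hp0
  rcases h2 with h2 | h2
  · have h3 : ∀ᶠ p in 𝓝 p0, pj (chartAt E4 p0.1 p.1) (e p).2 ≠ 0 :=
      (continuous_pj.continuousAt.comp hc3).eventually_ne h2
    filter_upwards [h1, h3] with p hp1 hp2
    exact (mem_UU_iff p0.1 p hp1).2 (Or.inl hp2)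
  · have h3 : ∀ᶠ p in 𝓝 p0, pk (chartAt E4 p0.1 p.1) (e p).2 ≠ 0 :=
      (continuous_pk.continuousAt.comp hc3).eventually_ne h2
    filter_upwards [h1, h3] with p hp1 hp2
    exact (mem_UU_iff p0.1 p hp1).2 (Or.inr hp2)

theorem cone_UU : IsOpenCone UU := by
  refine ⟨isOpen_UU, ?_⟩
  intro x v c hc h
  have h1 : pj (lf x) (show E4 from v) ≠ 0 ∨ pk (lf x) (show E4 from v) ≠ 0 := h
  change pj (lf x) (c • (show E4 from v)) ≠ 0 ∨ pk (lf x) (c • (show E4 from v)) ≠ 0
  rw [pj_smul, pk_smul]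
  rcases h1 with h1 | h1
  · exact Or.inl (mul_ne_zero hc h1)
  · exact Or.inr (mul_ne_zero hc h1)

theorem xi_in_UU : LiesIn xi UU := by
  intro m v hv hne
  have h1 : (show E4 from v) ∈ Submodule.span ℝ {J4 (lf m), K4 (lf m)} := hv
  obtain ⟨a, b, hab⟩ := Submodule.mem_span_pair.1 h1
  change pj (lf m) (show E4 from v) ≠ 0 ∨ pk (lf m) (show E4 from v) ≠ 0
  rw [← hab, pj_add, pk_add, pj_smul, pj_smul, pk_smul, pk_smul, pj_J, pk_J, pj_K, pk_K, mul_zero,
    mul_zero, add_zero, zero_add]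
  by_contra hcon
  push Not at hcon
  have hd := dt_pos (lf_ne m)
  have ha : a = 0 := (mul_eq_zero.1 hcon.1).resolve_right hd
  have hb : b = 0 := (mul_eq_zero.1 hcon.2).resolve_right hd
  apply hne
  have : (show E4 from v) = 0 := by rw [← hab, ha, hb]; simp
  exact this

/-! ## The coorientations -/

/-- radial vector field -/
noncomputable def Nf (m : MM) : TangentSpace (𝓡 4) m := (show E4 from lf m)
/-- the field `i x` -/
noncomputable def Zf (m : MM) : TangentSpace (𝓡 4) m := (show E4 from I4 (lf m))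

theorem smooth_Nf : IsSmoothField Nf := by
  intro m0
  have h1 := ch_smooth m0 (A := fun z => z) contDiff_id (mem_chart_source E4 m0)
  refine h1.congr_of_eventuallyEq ?_
  filter_upwards [(chartAt E4 m0).open_source.mem_nhds (mem_chart_source E4 m0)] with m hm
  have h2 : Nf m = ch m0 (fun z => z) m := (ch_id m0 hm).symm
  rw [h2]

theorem smooth_Zf : IsSmoothField Zf := by
  intro m0
  have h1 := ch_smooth m0 (A := fun z => I4 z) (cd I4) (mem_chart_source E4 m0)
  refine h1.congr_of_eventuallyEq ?_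
  filter_upwards [(chartAt E4 m0).open_source.mem_nhds (mem_chart_source E4 m0)] with m hm
  have h2 : Zf m = ch m0 (fun z => I4 z) m := (ch_I m0 hm).symm
  rw [h2]

theorem Nf_notMem (m : MM) : Nf m ∉ FF m := by
  intro h
  have h1 : inner ℝ (lf m) (lf m) = (0 : ℝ) := h
  rw [inner_dt] at h1
  exact dt_pos (lf_ne m) h1

theorem Zf_mem (m : MM) : Zf m ∈ FF m := by
  change inner ℝ (lf m) (I4 (lf m)) = (0 : ℝ)
  rw [inner_dt, dt_I]

theorem Zf_notMem (m : MM) : Zf m ∉ xi m := by
  intro h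
  have h1 : I4 (lf m) ∈ Submodule.span ℝ {J4 (lf m), K4 (lf m)} := h
  obtain ⟨a, b, hab⟩ := Submodule.mem_span_pair.1 h1
  have e1 := congrArg (dt (I4 (lf m))) hab
  have e2 : dt (I4 (lf m)) (a • J4 (lf m) + b • K4 (lf m)) = 0 := by
    simp [dt, I4_apply, J4_apply, K4_apply]; ring
  have e3 : dt (I4 (lf m)) (I4 (lf m)) = dt (lf m) (lf m) := by
    simp [dt, I4_apply]; ring
  rw [e2, e3] at e1
  exact dt_pos (lf_ne m) e1.symm

/-- **Answer to Q1: no.** There are a closed connected 4-manifold `M`, a foliation of codimension 1 of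
`M` with tangent field `F`, and a leafwise contact structure `ξ ⊂ F` that splits as a sum of line
fields, such that `(F, ξ)` cannot be perturbed to an Engel structure. -/
theorem result : ∃ (M : Type) (_ : TopologicalSpace M) (_ : ChartedSpace (EuclideanSpace ℝ (Fin 4)) M)
    (_ : IsManifold (𝓡 4) ∞ M), IsClosedConnected M ∧ HasDataWithoutEngel M (𝓡 4) := by
  refine ⟨MM, inferInstance, inferInstance, inferInstance, ⟨inferInstance, inferInstance,
    inferInstance, inferInstance⟩, FF, xi, foliation, contact, split,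
    ⟨Nf, Zf, smooth_Nf, smooth_Zf, fun x => ⟨Nf_notMem x, Zf_mem x, Zf_notMem x⟩⟩, ?_,
    UU, cone_UU, xi_in_UU, no_engel⟩
  intro h
  obtain ⟨D, h1, h2, -⟩ := h UU univ cone_UU xi_in_UU ⟨isOpen_univ, fun _ _ _ _ _ => mem_univ _⟩
    (fun _ _ _ _ => mem_univ _)
  exact no_engel D h1 h2

end Pool.Agent.Results.MP_d7c110_gt.NoEngelNearby
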